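import Pool.Agent.N256.VZ.Fin

set_option autoImplicit false

namespace Pool.Agent.Results.MP_c351d3_co.AlmostAllGraphs

open Pool.Agent.N256.VZ (domNum Dom Attachable Good)

/-- Let `1 ≤ k` and `64 · 2 ^ k (k ^ 2 + m) log n ≤ n`.  Among the graphs with vertex set `Fin n` and
domination number at most `k`, all but a proportion `1 / n` have domination number exactly `k` and all
their sets of at most `m` vertices are attachable (for the empty set this is the inequality
`γ(G □ H) ≥ γ(G) γ(H)` for all `H`); among the graphs with domination number exactly `k` all but a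
proportion `1 / (n - 1)` have this property. -/
theorem result (n k m : ℕ) (hk : 1 ≤ k)
    (h : 64 * 2 ^ k * ((k : ℝ) ^ 2 + m) * Real.log n ≤ n) :
    (n : ℝ) * {G : SimpleGraph (Fin n) | domNum G ≤ k ∧
        ¬ (domNum G = k ∧ ∀ S : Finset (Fin n), S.card ≤ m → Attachable G S)}.ncard ≤
      {G : SimpleGraph (Fin n) | domNum G ≤ k}.ncard ∧
    ((n : ℝ) - 1) * {G : SimpleGraph (Fin n) | domNum G = k ∧
        ¬ ∀ S : Finset (Fin n), S.card ≤ m → Attachable G S}.ncard ≤
      {G : SimpleGraph (Fin n) | domNum G = k}.ncard := by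
  classical
  have key : (n : ℝ) * {G : SimpleGraph (Fin n) | domNum G ≤ k ∧
        ¬ (domNum G = k ∧ ∀ S : Finset (Fin n), S.card ≤ m → Attachable G S)}.ncard ≤
      {G : SimpleGraph (Fin n) | domNum G ≤ k}.ncard := by
    rcases Nat.lt_or_ge n 2 with hn | hn
    · have h1 : {G : SimpleGraph (Fin n) | domNum G ≤ k ∧
          ¬ (domNum G = k ∧ ∀ S : Finset (Fin n), S.card ≤ m → Attachable G S)}.ncard ≤
          {G : SimpleGraph (Fin n) | domNum G ≤ k}.ncard :=
        Set.ncard_le_ncard (fun G hG => hG.1) (Set.toFinite _)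
      have h2 : (n : ℝ) ≤ 1 := by
        have : n ≤ 1 := by omega
        exact_mod_cast this
      calc (n : ℝ) * {G : SimpleGraph (Fin n) | domNum G ≤ k ∧
          ¬ (domNum G = k ∧ ∀ S : Finset (Fin n), S.card ≤ m → Attachable G S)}.ncard
          ≤ 1 * {G : SimpleGraph (Fin n) | domNum G ≤ k ∧
          ¬ (domNum G = k ∧ ∀ S : Finset (Fin n), S.card ≤ m → Attachable G S)}.ncard :=
            mul_le_mul_of_nonneg_right h2 (Nat.cast_nonneg _)
        _ ≤ _ := by rw [one_mul]; exact_mod_cast h1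
    have hkR : (1 : ℝ) ≤ k := by exact_mod_cast hk
    have hmR : (0 : ℝ) ≤ m := Nat.cast_nonneg _
    obtain ⟨h1, h2⟩ := Pool.Agent.N256.VZ.sizes n k m (m + 4 * k ^ 2) hk hn ((k : ℝ) ^ 2 + m)
      (by push_cast; nlinarith) (by push_cast; nlinarith) (by positivity) h
    have h3 := Pool.Agent.N256.VZ.bad_le n k (m + 4 * k ^ 2) hk hn h1 h2
    have hkn : k < n := by nlinarith
    have hkc : k < Fintype.card (Fin n) := by rwa [Fintype.card_fin]
    have e2 : {G : SimpleGraph (Fin n) | domNum G ≤ k}.ncard =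
        (Finset.univ.filter fun G : SimpleGraph (Fin n) =>
          ∃ P : Finset (Fin n), P.card = k ∧ Dom G P).card := by
      rw [← Set.ncard_coe_finset]
      congr 1
      ext G
      simp only [Set.mem_setOf_eq, Finset.coe_filter, Finset.mem_univ, true_and]
      exact Pool.Agent.N256.VZ.domNum_le_iff G k hkc.le
    have e1 : {G : SimpleGraph (Fin n) | domNum G ≤ k ∧
        ¬ (domNum G = k ∧ ∀ S : Finset (Fin n), S.card ≤ m → Attachable G S)}.ncard ≤
        (Finset.univ.filter fun G : SimpleGraph (Fin n) =>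
          (∃ P : Finset (Fin n), P.card = k ∧ Dom G P) ∧ ¬ Good k (m + 4 * k ^ 2) G).card := by
      rw [← Set.ncard_coe_finset]
      apply Set.ncard_le_ncard _ (Set.toFinite _)
      intro G hG
      simp only [Finset.coe_filter, Finset.mem_univ, true_and, Set.mem_setOf_eq]
      refine ⟨(Pool.Agent.N256.VZ.domNum_le_iff G k hkc.le).1 hG.1, fun hgood => hG.2 ⟨?_, ?_⟩⟩
      · exact Pool.Agent.N256.VZ.good_domNum hgood (by nlinarith) hkc
      · intro S hS
        exact Pool.Agent.N256.VZ.good_attach hk hgood hkc S hS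
    rw [e2]
    refine le_trans ?_ h3
    apply mul_le_mul_of_nonneg_left _ (Nat.cast_nonneg _)
    exact_mod_cast e1
  refine ⟨key, ?_⟩
  -- the second form
  have f1 : {G : SimpleGraph (Fin n) | domNum G = k ∧
        ¬ ∀ S : Finset (Fin n), S.card ≤ m → Attachable G S}.ncard +
      {G : SimpleGraph (Fin n) | domNum G ≤ k ∧ domNum G ≠ k}.ncard ≤
      {G : SimpleGraph (Fin n) | domNum G ≤ k ∧
        ¬ (domNum G = k ∧ ∀ S : Finset (Fin n), S.card ≤ m → Attachable G S)}.ncard := by
    rw [← Set.ncard_union_eq _ (Set.toFinite _) (Set.toFinite _)]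
    · apply Set.ncard_le_ncard _ (Set.toFinite _)
      rintro G (hG | hG)
      · exact ⟨hG.1.le, fun hc => hG.2 hc.2⟩
      · exact ⟨hG.1, fun hc => hG.2 hc.1⟩
    · rw [Set.disjoint_left]
      intro G h1 h2
      exact h2.2 h1.1
  have f2 : {G : SimpleGraph (Fin n) | domNum G ≤ k}.ncard ≤
      {G : SimpleGraph (Fin n) | domNum G = k}.ncard +
      {G : SimpleGraph (Fin n) | domNum G ≤ k ∧ domNum G ≠ k}.ncard := by
    refine (Set.ncard_le_ncard ?_ (Set.toFinite _)).trans (Set.ncard_union_le _ _)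
    intro G hG
    by_cases hc : domNum G = k
    · exact Or.inl hc
    · exact Or.inr ⟨hG, hc⟩
  set x := {G : SimpleGraph (Fin n) | domNum G = k ∧
        ¬ ∀ S : Finset (Fin n), S.card ≤ m → Attachable G S}.ncard with hx
  set y := {G : SimpleGraph (Fin n) | domNum G ≤ k ∧ domNum G ≠ k}.ncard with hy
  set w := {G : SimpleGraph (Fin n) | domNum G ≤ k ∧
        ¬ (domNum G = k ∧ ∀ S : Finset (Fin n), S.card ≤ m → Attachable G S)}.ncard with hw
  set u := {G : SimpleGraph (Fin n) | domNum G ≤ k}.ncard with hu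
  set v := {G : SimpleGraph (Fin n) | domNum G = k}.ncard with hv
  have g1 : (x : ℝ) + y ≤ w := by exact_mod_cast f1
  have g2 : (u : ℝ) ≤ v + y := by exact_mod_cast f2
  have hxpos : (0 : ℝ) ≤ x := Nat.cast_nonneg _
  have hypos : (0 : ℝ) ≤ y := Nat.cast_nonneg _
  have hvpos : (0 : ℝ) ≤ v := Nat.cast_nonneg _
  have hn0 : (0 : ℝ) ≤ n := Nat.cast_nonneg _
  rcases Nat.eq_zero_or_pos n with h0 | hpos
  · rw [h0]
    simp only [Nat.cast_zero, zero_sub]
    nlinarith
  · have hn1 : (1 : ℝ) ≤ n := by exact_mod_cast hpos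
    have g3 : (n : ℝ) * (x + y) ≤ v + y := by
      calc (n : ℝ) * (x + y) ≤ n * w := mul_le_mul_of_nonneg_left g1 hn0
        _ ≤ u := key
        _ ≤ v + y := g2
    nlinarith

end Pool.Agent.Results.MP_c351d3_co.AlmostAllGraphs
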